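import Pool.Agent.Helper25.LS.Defs2

/-!
# Project LS: non-Hilbertian examples (EX)
-/

set_option autoImplicit false

open Filter Topology Module
open scoped ENNReal NNReal

namespace Pool.Agent.Helper94.LS

open Pool.Agent.Helper25.LS

theorem dmono {X : Type} [NormedAddCommGroup X] [NormedSpace ℂ X] {m n : ℕ} {C C' : ℝ}
    (h : DLe X n C) (hmn : m ≤ n) (hC : C ≤ C') : DLe X m C' := by
  intro E hE hd
  obtain ⟨k, u, hu⟩ := h E hE (hd.trans hmn)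
  exact ⟨k, u, hu.trans hC⟩

/-- the size of a block -/
theorem size (k : ℕ) (α : ℝ) (h0 : 0 < α) (h1 : α ≤ 1) :
    ∃ N : ℕ, 1 ≤ N ∧ (k : ℝ) ≤ (N : ℝ) ^ α ∧ (N : ℝ) ^ α ≤ (k : ℝ) + 2 := by
  set a : ℝ := max (k : ℝ) 1 with ha
  have ha1 : (1 : ℝ) ≤ a := le_max_right _ _
  have ha0 : (0 : ℝ) ≤ a := le_trans zero_le_one ha1
  have hak : a ≤ (k : ℝ) + 1 := by
    rw [ha]
    apply max_le
    · linarith
    · have : (0 : ℝ) ≤ (k : ℝ) := Nat.cast_nonneg k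
      linarith
  set x : ℝ := a ^ (1 / α) with hx
  have hx1 : 1 ≤ x := Real.one_le_rpow ha1 (by positivity)
  have hx0 : 0 ≤ x := le_trans zero_le_one hx1
  have hxa : x ^ α = a := by
    rw [hx, ← Real.rpow_mul ha0]
    have : 1 / α * α = 1 := by field_simp
    rw [this, Real.rpow_one]
  refine ⟨⌈x⌉₊, ?_, ?_, ?_⟩
  · exact Nat.one_le_iff_ne_zero.2 (by
      have : 0 < ⌈x⌉₊ := Nat.ceil_pos.2 (lt_of_lt_of_le zero_lt_one hx1)
      omega)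
  · calc (k : ℝ) ≤ a := le_max_left _ _
      _ = x ^ α := hxa.symm
      _ ≤ (⌈x⌉₊ : ℝ) ^ α := Real.rpow_le_rpow hx0 (Nat.le_ceil x) h0.le
  · have h2 : (⌈x⌉₊ : ℝ) ≤ x + 1 := (Nat.ceil_lt_add_one hx0).le
    have h3 : (x + 1) ^ α ≤ x ^ α + 1 ^ α := Real.rpow_add_le_add_rpow hx0 zero_le_one h0.le h1
    calc (⌈x⌉₊ : ℝ) ^ α ≤ (x + 1) ^ α := Real.rpow_le_rpow (Nat.cast_nonneg _) h2 h0.le
      _ ≤ x ^ α + 1 ^ α := h3
      _ = a + 1 := by rw [hxa, Real.one_rpow]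
      _ ≤ (k : ℝ) + 2 := by linarith

theorem ex (h1 : S_PC) (h2 : S_LP) (h3 : S_BK) (h4 : S_L2) (h5 : S_NH) : S_EX := by
  intro φ hφ
  have hm : ∀ k : ℕ, ∃ m : ℕ, ∀ n, m ≤ n → (k : ℝ) + 2 ≤ φ n := by
    intro k
    have := (tendsto_atTop.1 hφ ((k : ℝ) + 2))
    obtain ⟨m, hm⟩ := eventually_atTop.1 this
    exact ⟨m, fun n hn => hm n hn⟩
  choose m hm using hm
  have ht : ∀ k : ℕ, ∃ t : ℝ≥0, 0 < t ∧ ∀ N : ℕ, DLe (Blk t N) (m k) 2 := by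
    intro k
    obtain ⟨δ, hδ, hB⟩ := h1 (m k)
    obtain ⟨t₀, ht₀, ht⟩ := h2 δ hδ
    exact ⟨t₀, ht₀, fun N => hB (Blk t₀ N) (ht t₀ N le_rfl)⟩
  choose t ht0 ht using ht
  have hα : ∀ k : ℕ, 0 < (1 / 2 - 1 / (2 + (t k : ℝ)) : ℝ) ∧
      (1 / 2 - 1 / (2 + (t k : ℝ)) : ℝ) ≤ 1 := by
    intro k
    have hp : (0 : ℝ) < (t k : ℝ) := by exact_mod_cast ht0 k
    have h6 : 1 / (2 + (t k : ℝ)) < 1 / 2 := by
      apply one_div_lt_one_div_of_lt (by norm_num)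
      linarith
    have h7 : (0 : ℝ) < 1 / (2 + (t k : ℝ)) := by positivity
    constructor
    · linarith
    · linarith
  have hN : ∀ k : ℕ, ∃ N : ℕ, 1 ≤ N ∧ (k : ℝ) ≤ (N : ℝ) ^ (1 / 2 - 1 / (2 + (t k : ℝ)) : ℝ) ∧
      (N : ℝ) ^ (1 / 2 - 1 / (2 + (t k : ℝ)) : ℝ) ≤ (k : ℝ) + 2 :=
    fun k => size k _ (hα k).1 (hα k).2
  choose N hN1 hNk hNk2 using hN
  refine ⟨lp (fun k => Blk (t k) (N k)) 2, inferInstance, inferInstance, inferInstance, ?_, ?_⟩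
  · filter_upwards [tendsto_atTop.1 hφ 2] with n hn
    refine h4 (fun k => Blk (t k) (N k)) n (φ n) (by linarith) fun k => ?_
    rcases le_or_gt n (m k) with h | h
    · exact dmono (ht k (N k)) h hn
    · exact dmono (h3 (t k) (N k) n (hN1 k)) le_rfl ((hNk2 k).trans (hm k n h.le))
  · intro H _ _
    exact h5 t N hN1 hNk H

end Pool.Agent.Helper94.LS
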