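import Pool.Agent.Helper25.LS.Defs

/-!
# Project LS: subspaces (SB)
-/

set_option autoImplicit false

open Module

namespace Pool.Agent.Helper94.LS

open Pool.Agent.Helper25.LS

theorem sb : S_SB := by
  intro X _ _ n C h Y E hE hn
  -- the image of `E` in `X`
  let L : E ≃ₗ[ℂ] (E.map Y.subtype) := Submodule.equivSubtypeMap Y E
  have hL : ∀ x : E, ((L x : E.map Y.subtype) : X) = ((x : Y) : X) := fun x => rfl
  have hLn : ∀ x : E, ‖L x‖ = ‖x‖ := fun x => by
    change ‖((L x : E.map Y.subtype) : X)‖ = ‖((x : Y) : X)‖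
    rw [hL]
  let I : E ≃ₗᵢ[ℂ] (E.map Y.subtype) := ⟨L, hLn⟩
  haveI : FiniteDimensional ℂ (E.map Y.subtype) := LinearEquiv.finiteDimensional L
  have hf : finrank ℂ (E.map Y.subtype) ≤ n := by
    rw [← LinearEquiv.finrank_eq L]; exact hn
  obtain ⟨m, u, hu⟩ := h (E.map Y.subtype) inferInstance hf
  refine ⟨m, I.toContinuousLinearEquiv.trans u, ?_⟩
  refine le_trans ?_ hu
  have h1 : ‖((I.toContinuousLinearEquiv.trans u : E ≃L[ℂ] EuclideanSpace ℂ (Fin m)) :
      E →L[ℂ] EuclideanSpace ℂ (Fin m))‖ ≤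
      ‖(u : (E.map Y.subtype) →L[ℂ] EuclideanSpace ℂ (Fin m))‖ := by
    refine ContinuousLinearMap.opNorm_le_bound _ (ContinuousLinearMap.opNorm_nonneg _) fun x => ?_
    have h2 := (u : (E.map Y.subtype) →L[ℂ] EuclideanSpace ℂ (Fin m)).le_opNorm (I x)
    rw [I.norm_map] at h2
    exact h2
  have h2 : ‖((I.toContinuousLinearEquiv.trans u).symm : EuclideanSpace ℂ (Fin m) →L[ℂ] E)‖ ≤
      ‖(u.symm : EuclideanSpace ℂ (Fin m) →L[ℂ] (E.map Y.subtype))‖ := by
    refine ContinuousLinearMap.opNorm_le_bound _ (ContinuousLinearMap.opNorm_nonneg _) fun x => ?_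
    have h3 := (u.symm : EuclideanSpace ℂ (Fin m) →L[ℂ] (E.map Y.subtype)).le_opNorm x
    refine le_trans (le_of_eq ?_) h3
    change ‖I.symm (u.symm x)‖ = ‖u.symm x‖
    exact I.symm.norm_map _
  exact mul_le_mul h1 h2 (ContinuousLinearMap.opNorm_nonneg _) (ContinuousLinearMap.opNorm_nonneg _)

end Pool.Agent.Helper94.LS
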